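import Pool.Agent.Helper74.RN.St

set_option autoImplicit false

/-!
# Project RN, module FZR: no unmatched letters.
-/

namespace Pool.Agent.Helper78.RN

open Pool.Agent.Helper74 Pool.Agent.Helper74.RN
open Pool.Agent.Helper74.NM (NC)

theorem fo_zero {G : Type} {R : G → G → Prop} {w : List G} {k : ℕ} (h : Fo R w k) :
    k = 0 → NC R w := by
  induction h with
  | nil => intro _; exact NC.nil
  | skip x w k _ _ => intro h0; exact absurd h0 (Nat.succ_ne_zero k)
  | wrap x y u v j k hxy _ _ ihu ihv =>
    intro h0
    exact NC.wrap x y u v hxy (ihu (by omega)) (ihv (by omega))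

theorem hFZR : Pool.Agent.Helper74.RN.StFZR := by
  intro G R w
  constructor
  · intro h
    exact fo_zero h rfl
  · intro h
    induction h with
    | nil => exact Fo.nil
    | wrap x y u v hxy _ _ ihu ihv => exact Fo.wrap x y u v 0 0 hxy ihu ihv

end Pool.Agent.Helper78.RN
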